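import Pool.Agent.PCN.Core

/-!
# Contracting endomorphisms: the lower exponent-p central series and the lower central series
-/

set_option autoImplicit false

open scoped commutatorElement
open EssMap

namespace PCN

variable {G : Type*} [Group G]

theorem isPGroup_quot (p : ℕ) (m : ℕ) : IsPGroup p (G ⧸ (L p m : Subgroup G)) := by
  intro x
  obtain ⟨x, rfl⟩ := QuotientGroup.mk_surjective x
  exact ⟨m, by rw [← QuotientGroup.mk_pow, QuotientGroup.eq_one_iff]; exact L_pow p m x⟩

theorem lcs_le_L_succ [Group.FG G] (p : ℕ) [hp : Fact p.Prime] (ψ : G →* G)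
    (h : ∀ x, ψ x ∈ L p 1) (hf : ψ.range.index ≠ 0) (n : ℕ) (hn : 2 * ψ.range.index ≤ n) :
    (⊤ : Subgroup G).lowerCentralSeries n ≤ L p (n + 1) := by
  induction n, hn using Nat.le_induction with
  | base =>
    set D := ψ.range.index with hD
    have hfi : (L p (2 * D + 1) : Subgroup G).FiniteIndex := L_finiteIndex p _
    have h1 : Nat.card (((⊤ : Subgroup G).lowerCentralSeries D).map
        (QuotientGroup.mk' (L p (2 * D + 1)))) ≤ D := by
      apply card_image_le p (2 * D + 1) hfi ψ hf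
      intro x hx
      have h2 := lcs_map ψ h D x hx
      have e : D * (1 + 1) + 1 = 2 * D + 1 := by ring
      rwa [e] at h2
    have hfin : Finite (G ⧸ (L p (2 * D + 1) : Subgroup G)) := inferInstance
    have hnil : Group.IsNilpotent (G ⧸ (L p (2 * D + 1) : Subgroup G)) :=
      (isPGroup_quot p _).isNilpotent
    have hmap : ∀ i, ((⊤ : Subgroup G).lowerCentralSeries i).map
        (QuotientGroup.mk' (L p (2 * D + 1))) =
        (⊤ : Subgroup (G ⧸ (L p (2 * D + 1) : Subgroup G))).lowerCentralSeries i := by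
      intro i
      rw [Subgroup.map_lowerCentralSeries, Subgroup.map_top_of_surjective _
        (QuotientGroup.mk'_surjective _)]
    rw [hmap] at h1
    have h3 := lcs_bot hnil D D D h1 Nat.lt_two_pow_self
    rw [← hmap, Subgroup.map_eq_bot_iff, QuotientGroup.ker_mk'] at h3
    rw [two_mul] at h3 ⊢
    exact h3
  | succ n hn ih =>
    rw [Subgroup.lowerCentralSeries_succ]
    exact (Subgroup.commutator_mono ih le_rfl).trans (L_comm_le p (n + 1))

/-- the power map on the factors of the series -/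
theorem power_step (p n : ℕ) (hn : 1 ≤ n)
    (hl : (⊤ : Subgroup G).lowerCentralSeries (n + 1) ≤ L p (n + 2))
    (hfi : (L p (n + 1) : Subgroup G).relIndex (L p n) ≠ 0) :
    (L p (n + 2) : Subgroup G).relIndex (L p (n + 1)) ≤
        (L p (n + 1) : Subgroup G).relIndex (L p n) ∧
      ((L p (n + 2) : Subgroup G).relIndex (L p (n + 1)) =
        (L p (n + 1) : Subgroup G).relIndex (L p n) →
        ∀ x ∈ (L p n : Subgroup G), x ^ p ∈ (L p (n + 2) : Subgroup G) →
          x ∈ (L p (n + 1) : Subgroup G)) := by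
  let f : (L p n : Subgroup G) →* G ⧸ (L p (n + 2) : Subgroup G) :=
    { toFun := fun x => (((x : G) ^ p : G) : G ⧸ (L p (n + 2) : Subgroup G))
      map_one' := by
        show (((1 : G) ^ p : G) : G ⧸ (L p (n + 2) : Subgroup G)) = 1
        rw [one_pow]; rfl
      map_mul' := by
        intro x y
        show (((x : G) * y) ^ p : G) = (((x : G) ^ p : G) : G ⧸ (L p (n + 2) : Subgroup G)) *
          (((y : G) ^ p : G) : G ⧸ (L p (n + 2) : Subgroup G))
        rw [← QuotientGroup.mk_mul]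
        apply mul_pow_eq
        exact L_antitone p (by omega) (L_comm p n n
          (Subgroup.commutator_mem_commutator x.2 y.2)) }
  have hf : ∀ x : (L p n : Subgroup G),
      f x = (((x : G) ^ p : G) : G ⧸ (L p (n + 2) : Subgroup G)) := fun _ => rfl
  let g : (L p (n + 1) : Subgroup G) →* G ⧸ (L p (n + 2) : Subgroup G) :=
    (QuotientGroup.mk' (L p (n + 2))).comp (L p (n + 1)).subtype
  have hgr : g.range = (L p (n + 1)).map (QuotientGroup.mk' (L p (n + 2))) := by
    rw [MonoidHom.range_comp, Subgroup.range_subtype]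
  have hfg : f.range = g.range := by
    rw [hgr]
    apply le_antisymm
    · rintro _ ⟨x, rfl⟩
      exact ⟨(x : G) ^ p, L_pow_mem x.2, rfl⟩
    · have h1 : L p (n + 1) ≤ f.range.comap (QuotientGroup.mk' (L p (n + 2))) := by
        refine (L_gen p n).trans ?_
        rw [sup_le_iff, sup_le_iff]
        have h2 : (L p (n + 2) : Subgroup G) ≤
            f.range.comap (QuotientGroup.mk' (L p (n + 2))) := by
          intro x hx
          rw [Subgroup.mem_comap]
          have : QuotientGroup.mk' (L p (n + 2)) x = 1 := (QuotientGroup.eq_one_iff x).2 hx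
          rw [this]
          exact one_mem _
        refine ⟨⟨hl.trans h2, ?_⟩, h2⟩
        apply pw_le
        intro x hx
        exact ⟨⟨x, hx⟩, rfl⟩
      rw [← Subgroup.map_le_iff_le_comap] at h1
      exact h1
  have hgk : g.ker = (L p (n + 2) : Subgroup G).subgroupOf (L p (n + 1)) := by
    ext x
    rw [MonoidHom.mem_ker, Subgroup.mem_subgroupOf]
    exact QuotientGroup.eq_one_iff _
  have h1 : f.ker.index = (L p (n + 2) : Subgroup G).relIndex (L p (n + 1)) := by
    rw [Subgroup.index_ker, hfg, ← Subgroup.index_ker, hgk]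
    rfl
  have h2 : (L p (n + 1) : Subgroup G).subgroupOf (L p n) ≤ f.ker := by
    intro x hx
    rw [MonoidHom.mem_ker, hf, QuotientGroup.eq_one_iff]
    exact L_pow_mem (Subgroup.mem_subgroupOf.1 hx)
  have h3 : ((L p (n + 1) : Subgroup G).subgroupOf (L p n)).index =
      (L p (n + 1) : Subgroup G).relIndex (L p n) := rfl
  have h4 := Subgroup.relIndex_mul_index h2
  rw [h1, h3] at h4
  constructor
  · exact Nat.le_of_dvd (Nat.pos_of_ne_zero hfi) (Dvd.intro_left _ h4)
  · intro he x hx hxp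
    rw [he] at h4
    have h5 : ((L p (n + 1) : Subgroup G).subgroupOf (L p n)).relIndex f.ker = 1 := by
      have h6 : ((L p (n + 1) : Subgroup G).subgroupOf (L p n)).relIndex f.ker *
          (L p (n + 1) : Subgroup G).relIndex (L p n) =
          1 * (L p (n + 1) : Subgroup G).relIndex (L p n) := by rw [h4, one_mul]
      exact Nat.eq_of_mul_eq_mul_right (Nat.pos_of_ne_zero hfi) h6
    rw [Subgroup.relIndex_eq_one] at h5
    have h7 : (⟨x, hx⟩ : (L p n : Subgroup G)) ∈ f.ker := by
      rw [MonoidHom.mem_ker, hf, QuotientGroup.eq_one_iff]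
      exact hxp
    exact Subgroup.mem_subgroupOf.1 (h5 h7)

/-- an antitone sequence of natural numbers is eventually constant -/
theorem eventually_const (a : ℕ → ℕ) (N : ℕ) (h : ∀ n, N ≤ n → a (n + 1) ≤ a n) :
    ∃ n0, N ≤ n0 ∧ ∀ n, n0 ≤ n → a (n + 1) = a n := by
  have hmono : ∀ k l, a (N + (k + l)) ≤ a (N + k) := by
    intro k l
    induction l with
    | zero => exact le_rfl
    | succ l ih =>
      refine le_trans ?_ ih
      have := h (N + (k + l)) (Nat.le_add_right _ _)
      rwa [show N + (k + l) + 1 = N + (k + (l + 1)) by ring] at this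
  obtain ⟨k, hk⟩ : ∃ k, ∀ l, a (N + k) ≤ a (N + l) := by
    have hne : (Set.range fun k => a (N + k)).Nonempty := ⟨a (N + 0), ⟨0, rfl⟩⟩
    obtain ⟨k, hk⟩ := Nat.sInf_mem hne
    refine ⟨k, fun l => ?_⟩
    have hk' : a (N + k) = sInf (Set.range fun k => a (N + k)) := hk
    rw [hk']
    exact Nat.sInf_le ⟨l, rfl⟩
  refine ⟨N + k, Nat.le_add_right _ _, ?_⟩
  intro n hn
  obtain ⟨l, rfl⟩ := Nat.exists_eq_add_of_le hn
  have e1 : N + k + l = N + (k + l) := by ring
  have e2 : N + k + l + 1 = N + (k + (l + 1)) := by ring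
  rw [e1, show N + (k + l) + 1 = N + (k + (l + 1)) by ring]
  have h1 := hk (k + l)
  have h2 := hk (k + (l + 1))
  have h3 := hmono k l
  have h4 := hmono k (l + 1)
  omega

theorem contr (p : ℕ) [hp : Fact p.Prime] [Group.FG G] (ψ : G →* G)
    (h : ∀ x, ψ x ∈ L p 1) (hf : ψ.range.FiniteIndex) :
    ∃ n w : ℕ, ∀ x : G, x ∈ (⊤ : Subgroup G).lowerCentralSeries w → x ∈ L p n →
      ∀ m, x ∈ L p m := by
  set D := ψ.range.index with hD
  have hD0 : D ≠ 0 := hf.index_ne_zero
  have hlcs : ∀ n, 2 * D ≤ n → (⊤ : Subgroup G).lowerCentralSeries n ≤ L p (n + 1) :=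
    fun n hn => lcs_le_L_succ p ψ h hD0 n hn
  have hrel : ∀ n, (L p (n + 1) : Subgroup G).relIndex (L p n) ≠ 0 := by
    intro n
    have h1 : (L p (n + 1) : Subgroup G).FiniteIndex := L_finiteIndex p _
    have h2 := Subgroup.relIndex_mul_index (L_succ_le p n : (L p (n + 1) : Subgroup G) ≤ L p n)
    intro h3
    rw [h3, zero_mul] at h2
    exact h1.index_ne_zero h2.symm
  have hstep : ∀ n, 2 * D ≤ n → _ := fun n hn =>
    power_step (G := G) p n (by omega) (hlcs (n + 1) (by omega)) (hrel n)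
  obtain ⟨n0, hn0, hconst⟩ := eventually_const
    (fun n => (L p (n + 1) : Subgroup G).relIndex (L p n)) (2 * D) (fun n hn => (hstep n hn).1)
  have hJ : ∀ n, n0 ≤ n → ∀ x : G, x ∈ L p n → x ∉ L p (n + 1) → ∀ k,
      x ^ p ^ k ∈ L p (n + k) ∧ x ^ p ^ k ∉ L p (n + k + 1) := by
    intro n hn x hx hx' k
    induction k with
    | zero => rw [pow_zero, pow_one, add_zero]; exact ⟨hx, hx'⟩
    | succ k ih =>
      rw [pow_succ, pow_mul]
      refine ⟨L_pow_mem ih.1, fun hmem => ih.2 ?_⟩
      exact (hstep (n + k) (by omega)).2 (hconst (n + k) (by omega)) _ ih.1 hmem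
  refine ⟨n0, D, ?_⟩
  intro x hxw hxn m
  by_contra hxm
  -- the last term containing `x`
  obtain ⟨n, hn, hn1, hn2⟩ : ∃ n, n0 ≤ n ∧ x ∈ L p n ∧ x ∉ L p (n + 1) := by
    classical
    have hex : ∃ l, x ∉ L p l := ⟨m, hxm⟩
    have h1 := Nat.find_spec hex
    have h2 : n0 < Nat.find hex := by
      by_contra hlt
      exact h1 (L_antitone p (not_lt.1 hlt) hxn)
    refine ⟨Nat.find hex - 1, by omega, ?_, ?_⟩
    · by_contra h3
      exact Nat.find_min hex (by omega) h3
    · rwa [Nat.sub_add_cancel (by omega)]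
  set M := D * (n + 1) + n with hM
  have hfi : (L p M : Subgroup G).FiniteIndex := L_finiteIndex p _
  have hfin : Finite (G ⧸ (L p M : Subgroup G)) := inferInstance
  have hir := itr_range_index ψ hf n
  have h1 : Nat.card (((⊤ : Subgroup G).lowerCentralSeries D).map (QuotientGroup.mk' (L p M))) ≤
      D ^ n := by
    refine (card_image_le p M hfi (itr ψ n) hir.1 _ ?_).trans hir.2
    intro y hy
    exact lcs_map (itr ψ n) (itr_mem_L ψ h n) D y hy
  have h2 : orderOf (x : G ⧸ (L p M : Subgroup G)) ≤ D ^ n := by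
    refine le_trans (Nat.le_of_dvd Nat.card_pos ?_) h1
    have hmem : (x : G ⧸ (L p M : Subgroup G)) ∈
        ((⊤ : Subgroup G).lowerCentralSeries D).map (QuotientGroup.mk' (L p M)) := ⟨x, hxw, rfl⟩
    rw [← Subgroup.orderOf_mk _ hmem]
    exact orderOf_dvd_natCard _
  have hk : ∀ k, k < D * (n + 1) → (x : G ⧸ (L p M : Subgroup G)) ^ p ^ k ≠ 1 := by
    intro k hk h3
    rw [← QuotientGroup.mk_pow, QuotientGroup.eq_one_iff] at h3
    exact (hJ n hn x hn1 hn2 k).2 (L_antitone p (by omega) h3)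
  have h4 : p ^ (D * (n + 1)) ≤ orderOf (x : G ⧸ (L p M : Subgroup G)) := by
    obtain ⟨s, hs⟩ : ∃ s, orderOf (x : G ⧸ (L p M : Subgroup G)) = p ^ s := by
      have h5 : (x : G ⧸ (L p M : Subgroup G)) ^ p ^ M = 1 := by
        rw [← QuotientGroup.mk_pow, QuotientGroup.eq_one_iff]
        exact L_pow p M x
      obtain ⟨s, _, hs⟩ := (Nat.dvd_prime_pow hp.out).1 (orderOf_dvd_of_pow_eq_one h5)
      exact ⟨s, hs⟩
    rw [hs]
    apply Nat.pow_le_pow_right hp.out.pos
    by_contra hlt
    exact hk s (not_le.1 hlt) (by rw [← hs]; exact pow_orderOf_eq_one _)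
  have h5 : 2 ^ (D * (n + 1)) ≤ p ^ (D * (n + 1)) := Nat.pow_le_pow_left hp.out.two_le _
  have h6 : D ^ n ≤ 2 ^ (D * n) := by
    rw [pow_mul]
    exact Nat.pow_le_pow_left Nat.lt_two_pow_self.le _
  have h7 : 2 ^ (D * n) < 2 ^ (D * (n + 1)) := by
    apply Nat.pow_lt_pow_right (by norm_num)
    rw [mul_add, mul_one]
    omega
  omega

end PCN

namespace BCX

/-- ROW CORE: p-contracting endomorphisms -/
theorem contr_core {X : Type} [Group X] [Group.FG X] (p : ℕ) [Fact p.Prime] (θ : X →* X)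
    (hfin : θ.range.FiniteIndex) (r : ℕ) (hr : ∀ x : X, θ^[r] x ∈ (PCN.L p 1 : Subgroup X)) :
    ∃ n w : ℕ, (PCN.L p n : Subgroup X).FiniteIndex ∧
      ∀ x : X, x ∈ (⊤ : Subgroup X).lowerCentralSeries w → x ∈ PCN.L p n → ∀ m, x ∈ PCN.L p m := by
  obtain ⟨n, w, h⟩ := PCN.contr p (itr θ r) (fun x => by rw [itr_eq_iterate]; exact hr x)
    ⟨(PCN.itr_range_index θ hfin r).1⟩
  exact ⟨n, w, PCN.L_finiteIndex p n, h⟩

end BCX
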