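import Mathlib

/-!
# The lower exponent-p central series
-/

set_option autoImplicit false

open scoped commutatorElement

namespace PCN

variable {G : Type*} [Group G]

/-- the subgroup generated by the `p`-th powers of elements of `S` -/
def pw (p : ℕ) (S : Subgroup G) : Subgroup G := Subgroup.closure {y | ∃ x ∈ S, x ^ p = y}

theorem pow_mem_pw {p : ℕ} {S : Subgroup G} {x : G} (hx : x ∈ S) : x ^ p ∈ pw p S :=
  Subgroup.subset_closure ⟨x, hx, rfl⟩

theorem pw_le {p : ℕ} {S T : Subgroup G} (h : ∀ x ∈ S, x ^ p ∈ T) : pw p S ≤ T := by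
  rw [pw, Subgroup.closure_le]
  rintro y ⟨x, hx, rfl⟩
  exact h x hx

theorem pw_mono {p : ℕ} {S T : Subgroup G} (h : S ≤ T) : pw p S ≤ pw p T :=
  pw_le fun _ hx => pow_mem_pw (h hx)

instance pw_normal {p : ℕ} {S : Subgroup G} [hS : S.Normal] : (pw p S).Normal := by
  constructor
  intro y hy g
  refine Subgroup.closure_induction (p := fun y _ => g * y * g⁻¹ ∈ pw p S) ?_ ?_ ?_ ?_ hy
  · rintro y ⟨x, hx, rfl⟩
    rw [← conj_pow]
    exact pow_mem_pw (hS.conj_mem x hx g)
  · simp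
  · intro a b _ _ ha hb
    have h := mul_mem ha hb
    have e : g * a * g⁻¹ * (g * b * g⁻¹) = g * (a * b) * g⁻¹ := by group
    rwa [e] at h
  · intro a _ ha
    have h := inv_mem ha
    have e : (g * a * g⁻¹)⁻¹ = g * a⁻¹ * g⁻¹ := by group
    rwa [e] at h

/-- the lower exponent-`p` central series (the index starts at `0`) -/
def L (p : ℕ) : ℕ → Subgroup G
  | 0 => ⊤
  | n + 1 => ⁅L p n, ⊤⁆ ⊔ pw p (L p n)

theorem L_zero (p : ℕ) : (L p 0 : Subgroup G) = ⊤ := rfl

theorem L_succ (p n : ℕ) : (L p (n + 1) : Subgroup G) =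
    ⁅(L p n : Subgroup G), (⊤ : Subgroup G)⁆ ⊔ pw p (L p n) := rfl

instance L_normal (p n : ℕ) : (L p n : Subgroup G).Normal := by
  induction n with
  | zero => rw [L_zero]; infer_instance
  | succ n ih => rw [L_succ]; infer_instance

theorem L_comm_le (p n : ℕ) : ⁅(L p n : Subgroup G), (⊤ : Subgroup G)⁆ ≤ L p (n + 1) := by
  rw [L_succ]; exact le_sup_left

theorem L_pw_le (p n : ℕ) : pw p (L p n : Subgroup G) ≤ L p (n + 1) := by
  rw [L_succ]; exact le_sup_right

theorem L_pow_mem {p n : ℕ} {x : G} (hx : x ∈ L p n) : x ^ p ∈ L p (n + 1) :=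
  L_pw_le p n (pow_mem_pw hx)

theorem L_succ_le (p n : ℕ) : (L p (n + 1) : Subgroup G) ≤ L p n := by
  rw [L_succ, sup_le_iff]
  constructor
  · exact Subgroup.commutator_le_left _ _
  · exact pw_le fun x hx => Subgroup.pow_mem _ hx p

theorem L_antitone (p : ℕ) : Antitone (L p : ℕ → Subgroup G) :=
  antitone_nat_of_succ_le (L_succ_le p)

theorem lcs_le_L (p n : ℕ) : (⊤ : Subgroup G).lowerCentralSeries n ≤ L p n := by
  induction n with
  | zero => rw [L_zero]; exact le_top
  | succ n ih => exact (Subgroup.commutator_mono ih le_rfl).trans (L_comm_le p n)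

/-- the elements that commute with `A` modulo `N` -/
def cz (A N : Subgroup G) [hN : N.Normal] : Subgroup G where
  carrier := {y | ∀ x ∈ A, ⁅x, y⁆ ∈ N}
  mul_mem' := by
    intro y z hy hz x hx
    have e : ⁅x, y * z⁆ = ⁅x, y⁆ * (y * ⁅x, z⁆ * y⁻¹) := by
      simp only [commutatorElement_def]; group
    rw [e]
    exact mul_mem (hy x hx) (hN.conj_mem _ (hz x hx) y)
  one_mem' := by
    intro x _
    simp
  inv_mem' := by
    intro y hy x hx
    have e : ⁅x, y⁻¹⁆ = y⁻¹ * ⁅x, y⁆⁻¹ * y⁻¹⁻¹ := by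
      simp only [commutatorElement_def]; group
    rw [e]
    exact hN.conj_mem _ (inv_mem (hy x hx)) y⁻¹

theorem mem_cz {A N : Subgroup G} [N.Normal] {y : G} : y ∈ cz A N ↔ ∀ x ∈ A, ⁅x, y⁆ ∈ N :=
  Iff.rfl

theorem comm_le_iff {A B N : Subgroup G} [N.Normal] : ⁅A, B⁆ ≤ N ↔ B ≤ cz A N := by
  rw [Subgroup.commutator_le]
  exact ⟨fun h y hy x hx => h x hx y hy, fun h x hx y hy => h hy x hx⟩

theorem three {A B C N : Subgroup G} [N.Normal] (h1 : ⁅⁅B, C⁆, A⁆ ≤ N) (h2 : ⁅⁅C, A⁆, B⁆ ≤ N) :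
    ⁅⁅A, B⁆, C⁆ ≤ N := by
  have key : ∀ X Y Z : Subgroup G, ⁅⁅X, Y⁆, Z⁆ ≤ N ↔
      ⁅⁅X.map (QuotientGroup.mk' N), Y.map (QuotientGroup.mk' N)⁆, Z.map (QuotientGroup.mk' N)⁆ =
        ⊥ := by
    intro X Y Z
    rw [← Subgroup.map_commutator, ← Subgroup.map_commutator, Subgroup.map_eq_bot_iff,
      QuotientGroup.ker_mk']
  rw [key] at h1 h2 ⊢
  exact Subgroup.commutator_commutator_eq_bot_of_rotate h1 h2

theorem mul_pow_eq {N : Subgroup G} [N.Normal] {x y : G} (h : ⁅x, y⁆ ∈ N) (n : ℕ) :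
    (((x * y) ^ n : G) : G ⧸ N) = ((x ^ n * y ^ n : G) : G ⧸ N) := by
  have h1 : Commute (x : G ⧸ N) (y : G ⧸ N) := by
    rw [← commutatorElement_eq_one_iff_commute]
    have h2 : ((⁅x, y⁆ : G) : G ⧸ N) = 1 := (QuotientGroup.eq_one_iff _).2 h
    exact h2
  rw [QuotientGroup.mk_pow, QuotientGroup.mk_mul, h1.mul_pow]
  rfl

theorem comm_pow_eq {N : Subgroup G} [N.Normal] {x y : G} (h : ⁅⁅x, y⁆, y⁆ ∈ N) (n : ℕ) :
    ((⁅x, y ^ n⁆ : G) : G ⧸ N) = ((⁅x, y⁆ ^ n : G) : G ⧸ N) := by
  have h1 := mul_pow_eq h n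
  have e1 : ⁅x, y⁆ * y = x * y * x⁻¹ := by
    simp only [commutatorElement_def]; group
  rw [e1, conj_pow, QuotientGroup.mk_mul, QuotientGroup.mk_mul _ (_ ^ n)] at h1
  have e2 : ⁅x, y ^ n⁆ = (x * y ^ n * x⁻¹) * (y ^ n)⁻¹ := by
    simp only [commutatorElement_def]
  rw [e2, QuotientGroup.mk_mul, QuotientGroup.mk_mul, h1, QuotientGroup.mk_inv]
  group

theorem L_comm (p a b : ℕ) : ⁅(L p a : Subgroup G), (L p b : Subgroup G)⁆ ≤ L p (a + b + 1) := by
  induction b generalizing a with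
  | zero => exact L_comm_le p a
  | succ b ih =>
    have e : a + (b + 1) + 1 = a + b + 2 := by ring
    rw [e, comm_le_iff, L_succ p b, sup_le_iff]
    constructor
    · rw [← comm_le_iff, Subgroup.commutator_comm]
      apply three
      · rw [Subgroup.commutator_comm ⊤ (L p a)]
        refine (Subgroup.commutator_mono (L_comm_le p a) le_rfl).trans ?_
        refine (ih (a + 1)).trans (le_of_eq ?_)
        congr 1
        ring
      · exact (Subgroup.commutator_mono (ih a) le_rfl).trans (L_comm_le p (a + b + 1))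
    · apply pw_le
      intro y hy x hx
      have h1 : ⁅x, y⁆ ∈ L p (a + b + 1) := ih a (Subgroup.commutator_mem_commutator hx hy)
      have h2 : ⁅⁅x, y⁆, y⁆ ∈ L p (a + b + 2) :=
        L_comm_le p (a + b + 1) (Subgroup.commutator_mem_commutator h1 (Subgroup.mem_top _))
      have h3 := comm_pow_eq h2 p
      rw [← QuotientGroup.eq_one_iff, h3, QuotientGroup.eq_one_iff]
      exact L_pow_mem h1

/-- generation of the terms of the series by commutators and `p`-th powers -/
theorem L_gen (p n : ℕ) : (L p (n + 1) : Subgroup G) ≤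
    (⊤ : Subgroup G).lowerCentralSeries (n + 1) ⊔ pw p (L p n) ⊔ L p (n + 2) := by
  induction n with
  | zero =>
    rw [L_succ]
    exact le_sup_left
  | succ n ih =>
    set T : Subgroup G := (⊤ : Subgroup G).lowerCentralSeries (n + 1 + 1) ⊔ pw p (L p (n + 1)) ⊔
      L p (n + 1 + 2) with hT
    have hTn : T.Normal := by rw [hT]; infer_instance
    have hl : (⊤ : Subgroup G).lowerCentralSeries (n + 2) ≤ T := le_sup_left.trans le_sup_left
    have hp : pw p (L p (n + 1)) ≤ T := le_sup_right.trans le_sup_left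
    have hL : L p (n + 3) ≤ T := le_sup_right
    rw [L_succ p (n + 1), sup_le_iff]
    refine ⟨?_, hp⟩
    rw [Subgroup.commutator_comm, comm_le_iff]
    refine ih.trans ?_
    rw [sup_le_iff, sup_le_iff]
    refine ⟨⟨?_, ?_⟩, ?_⟩
    · rw [← comm_le_iff, Subgroup.commutator_comm]
      exact hl
    · apply pw_le
      intro y hy x _
      have h1 : ⁅x, y⁆ ∈ L p (n + 1) := by
        have := L_comm_le p n (Subgroup.commutator_mem_commutator hy (Subgroup.mem_top x))
        have e : ⁅x, y⁆ = ⁅y, x⁆⁻¹ := by simp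
        rw [e]
        exact inv_mem this
      have h2 : ⁅⁅x, y⁆, y⁆ ∈ T := by
        cases n with
        | zero =>
          apply hl
          have h3 : ⁅x, y⁆ ∈ (⊤ : Subgroup G).lowerCentralSeries 1 :=
            Subgroup.commutator_mem_commutator (Subgroup.mem_top x) (Subgroup.mem_top y)
          exact Subgroup.commutator_mem_commutator h3 (Subgroup.mem_top y)
        | succ n =>
          apply hL
          have h3 := L_comm p (n + 2) (n + 1) (Subgroup.commutator_mem_commutator h1 hy)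
          exact L_antitone p (by omega) h3
      have h3 := comm_pow_eq h2 p
      rw [← QuotientGroup.eq_one_iff, h3, QuotientGroup.eq_one_iff]
      exact hp (pow_mem_pw h1)
    · rw [← comm_le_iff, Subgroup.commutator_comm]
      exact (L_comm_le p (n + 2)).trans hL

end PCN
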