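import Pool.Agent.PCN.Series
import Pool.Agent.EssMap.Grp

/-!
# Contracting endomorphisms
-/

set_option autoImplicit false

open scoped commutatorElement
open EssMap

namespace PCN

variable {G : Type*} [Group G]

theorem L_pow (p n : ℕ) (x : G) : x ^ p ^ n ∈ L p n := by
  induction n with
  | zero => rw [L_zero]; exact Subgroup.mem_top _
  | succ n ih =>
    rw [pow_succ, pow_mul]
    exact L_pow_mem ih

theorem L_finiteIndex [Group.FG G] (p : ℕ) [hp : Fact p.Prime] (n : ℕ) :
    (L p n : Subgroup G).FiniteIndex := by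
  induction n with
  | zero => rw [L_zero]; infer_instance
  | succ n ih =>
    have hfg : Group.FG (L p n : Subgroup G) := inferInstance
    let K : Subgroup (L p n : Subgroup G) := (L p (n + 1)).subgroupOf (L p n)
    have hK : K.Normal := inferInstance
    have hcomm : ∀ a b : (L p n : Subgroup G) ⧸ K, a * b = b * a := by
      intro a b
      obtain ⟨a, rfl⟩ := QuotientGroup.mk_surjective a
      obtain ⟨b, rfl⟩ := QuotientGroup.mk_surjective b
      rw [← QuotientGroup.mk_mul, ← QuotientGroup.mk_mul, QuotientGroup.eq]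
      show (((a * b)⁻¹ * (b * a) : (L p n : Subgroup G)) : G) ∈ L p (n + 1)
      have e : (((a * b)⁻¹ * (b * a) : (L p n : Subgroup G)) : G) = ⁅(b : G)⁻¹, (a : G)⁻¹⁆ := by
        simp [commutatorElement_def, mul_assoc]
      rw [e]
      exact L_antitone p (by omega) (L_comm p n n (Subgroup.commutator_mem_commutator
        (inv_mem b.2) (inv_mem a.2)))
    letI : CommGroup ((L p n : Subgroup G) ⧸ K) :=
      { (inferInstance : Group ((L p n : Subgroup G) ⧸ K)) with mul_comm := hcomm }
    have htor : Monoid.IsTorsion ((L p n : Subgroup G) ⧸ K) := by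
      intro a
      obtain ⟨a, rfl⟩ := QuotientGroup.mk_surjective a
      rw [isOfFinOrder_iff_pow_eq_one]
      refine ⟨p, hp.out.pos, ?_⟩
      rw [← QuotientGroup.mk_pow, QuotientGroup.eq_one_iff]
      exact L_pow_mem a.2
    have hfin : Finite ((L p n : Subgroup G) ⧸ K) := CommGroup.finite_of_fg_torsion _ htor
    constructor
    rw [← Subgroup.relIndex_mul_index (L_succ_le p n)]
    apply mul_ne_zero _ ih.index_ne_zero
    exact Subgroup.index_ne_zero_of_finite (H := K)

theorem L_map_succ {p : ℕ} (ψ : G →* G) (h : ∀ x, ψ x ∈ L p 1) (n : ℕ) :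
    ∀ x ∈ L p n, ψ x ∈ L p (n + 1) := by
  induction n with
  | zero => intro x _; exact h x
  | succ n ih =>
    have h1 : L p (n + 1) ≤ (L p (n + 2)).comap ψ := by
      rw [L_succ p n, sup_le_iff]
      constructor
      · rw [Subgroup.commutator_le]
        intro x hx y _
        rw [Subgroup.mem_comap, map_commutatorElement]
        exact L_comm_le p (n + 1) (Subgroup.commutator_mem_commutator (ih x hx)
          (Subgroup.mem_top _))
      · apply pw_le
        intro x hx
        rw [Subgroup.mem_comap, map_pow]
        exact L_pow_mem (ih x hx)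
    exact fun x hx => h1 hx

theorem L_map (p : ℕ) (ψ : G →* G) (n : ℕ) : ∀ x ∈ L p n, ψ x ∈ L p n := by
  induction n with
  | zero => intro x _; rw [L_zero]; exact Subgroup.mem_top _
  | succ n ih =>
    have h1 : L p (n + 1) ≤ (L p (n + 1)).comap ψ := by
      conv_lhs => rw [L_succ p n]
      rw [sup_le_iff]
      constructor
      · rw [Subgroup.commutator_le]
        intro x hx y _
        rw [Subgroup.mem_comap, map_commutatorElement]
        exact L_comm_le p n (Subgroup.commutator_mem_commutator (ih x hx)
          (Subgroup.mem_top _))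
      · apply pw_le
        intro x hx
        rw [Subgroup.mem_comap, map_pow]
        exact L_pow_mem (ih x hx)
    exact fun x hx => h1 hx

theorem itr_mem_L {p : ℕ} (ψ : G →* G) (h : ∀ x, ψ x ∈ L p 1) (j : ℕ) (x : G) :
    itr ψ j x ∈ L p j := by
  induction j with
  | zero => rw [L_zero]; exact Subgroup.mem_top _
  | succ j ih => rw [itr_succ]; exact L_map_succ ψ h j _ ih

theorem lcs_map {p k : ℕ} (f : G →* G) (h : ∀ x, f x ∈ L p k) (i : ℕ) :
    ∀ x ∈ (⊤ : Subgroup G).lowerCentralSeries i, f x ∈ L p (i * (k + 1) + k) := by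
  induction i with
  | zero => intro x _; rw [zero_mul, zero_add]; exact h x
  | succ i ih =>
    have h1 : (⊤ : Subgroup G).lowerCentralSeries (i + 1) ≤
        (L p ((i + 1) * (k + 1) + k)).comap f := by
      rw [Subgroup.lowerCentralSeries_succ, Subgroup.commutator_le]
      intro x hx y _
      rw [Subgroup.mem_comap, map_commutatorElement]
      have h2 := L_comm p (i * (k + 1) + k) k
        (Subgroup.commutator_mem_commutator (ih x hx) (h y))
      have e : i * (k + 1) + k + k + 1 = (i + 1) * (k + 1) + k := by ring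
      rwa [e] at h2
    exact fun x hx => h1 hx

theorem itr_range_index (φ : G →* G) (hf : φ.range.FiniteIndex) (k : ℕ) :
    (itr φ k).range.index ≠ 0 ∧ (itr φ k).range.index ≤ φ.range.index ^ k := by
  induction k with
  | zero =>
    have : (itr φ 0).range = ⊤ := by
      show (MonoidHom.id G).range = ⊤
      exact MonoidHom.range_eq_top.2 Function.surjective_id
    rw [this, Subgroup.index_top, pow_zero]
    exact ⟨one_ne_zero, le_rfl⟩
  | succ k ih =>
    have h1 : (itr φ (k + 1)).range = (itr φ k).range.map φ := by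
      show (φ.comp (itr φ k)).range = _
      rw [MonoidHom.range_comp]
    have h2 : ((itr φ k).range ⊔ φ.ker).index ∣ (itr φ k).range.index :=
      Subgroup.index_dvd_of_le le_sup_left
    rw [h1, Subgroup.index_map]
    constructor
    · exact mul_ne_zero (ne_zero_of_dvd_ne_zero ih.1 h2) hf.index_ne_zero
    · rw [pow_succ]
      exact Nat.mul_le_mul ((Nat.le_of_dvd (Nat.pos_of_ne_zero ih.1) h2).trans ih.2) le_rfl

theorem card_image_le (p m : ℕ) (hfi : (L p m : Subgroup G).FiniteIndex) (f : G →* G)
    (hf : f.range.index ≠ 0) (S : Subgroup G) (hS : ∀ x ∈ S, f x ∈ L p m) :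
    Nat.card (S.map (QuotientGroup.mk' (L p m))) ≤ f.range.index := by
  have hle : L p m ≤ (L p m).comap f := fun x hx => L_map p f m x hx
  let g : G ⧸ (L p m : Subgroup G) →* G ⧸ (L p m : Subgroup G) := QuotientGroup.map _ _ f hle
  have hfin : Finite (G ⧸ (L p m : Subgroup G)) := inferInstance
  have h1 : g.range = f.range.map (QuotientGroup.mk' (L p m)) := by
    ext y
    constructor
    · rintro ⟨x, rfl⟩
      obtain ⟨x, rfl⟩ := QuotientGroup.mk_surjective x
      exact ⟨f x, ⟨x, rfl⟩, rfl⟩
    · rintro ⟨_, ⟨x, rfl⟩, rfl⟩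
      exact ⟨(x : G ⧸ (L p m : Subgroup G)), rfl⟩
  have h2 : g.range.index ∣ f.range.index := by
    rw [h1]
    exact Subgroup.index_map_dvd _ (QuotientGroup.mk'_surjective _)
  have h3 : Nat.card g.ker = g.range.index := by
    have h4 : Nat.card g.ker * g.ker.index = Nat.card (G ⧸ (L p m : Subgroup G)) :=
      Subgroup.card_mul_index _
    have h5 : Nat.card g.range * g.range.index = Nat.card (G ⧸ (L p m : Subgroup G)) :=
      Subgroup.card_mul_index _
    rw [Subgroup.index_ker] at h4
    have h6 : 0 < Nat.card g.range := Nat.card_pos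
    apply Nat.eq_of_mul_eq_mul_left h6
    rw [h5, ← h4, mul_comm]
  have h7 : S.map (QuotientGroup.mk' (L p m)) ≤ g.ker := by
    rintro _ ⟨x, hx, rfl⟩
    rw [MonoidHom.mem_ker]
    show ((f x : G) : G ⧸ (L p m : Subgroup G)) = 1
    rw [QuotientGroup.eq_one_iff]
    exact hS x hx
  calc Nat.card (S.map (QuotientGroup.mk' (L p m))) ≤ Nat.card g.ker :=
        Subgroup.card_le_of_le h7
    _ = g.range.index := h3
    _ ≤ f.range.index := Nat.le_of_dvd (Nat.pos_of_ne_zero hf) h2

theorem lcs_bot {H : Type*} [Group H] [Finite H] (hn : Group.IsNilpotent H) (i t D : ℕ)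
    (h1 : Nat.card ((⊤ : Subgroup H).lowerCentralSeries i) ≤ D) (h2 : D < 2 ^ t) :
    (⊤ : Subgroup H).lowerCentralSeries (i + t) = ⊥ := by
  have hstep : ∀ j, (⊤ : Subgroup H).lowerCentralSeries j = ⊥ ∨
      Nat.card ((⊤ : Subgroup H).lowerCentralSeries (j + 1)) * 2 ≤
        Nat.card ((⊤ : Subgroup H).lowerCentralSeries j) := by
    intro j
    have hle : (⊤ : Subgroup H).lowerCentralSeries (j + 1) ≤
        (⊤ : Subgroup H).lowerCentralSeries j :=
      Subgroup.lowerCentralSeries_antitone _ (Nat.le_succ j)
    by_cases he : (⊤ : Subgroup H).lowerCentralSeries (j + 1) =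
        (⊤ : Subgroup H).lowerCentralSeries j
    · left
      obtain ⟨n, hn⟩ := Subgroup.nilpotent_iff_lowerCentralSeries.1 hn
      have h3 : ∀ s, (⊤ : Subgroup H).lowerCentralSeries (j + s) =
          (⊤ : Subgroup H).lowerCentralSeries j := by
        intro s
        induction s with
        | zero => rfl
        | succ s ih =>
          rw [← add_assoc, Subgroup.lowerCentralSeries_succ, ih,
            ← Subgroup.lowerCentralSeries_succ, he]
      rw [← h3 n, eq_bot_iff, ← hn]
      exact Subgroup.lowerCentralSeries_antitone _ (Nat.le_add_left n j)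
    · right
      have h3 : Nat.card ((⊤ : Subgroup H).lowerCentralSeries (j + 1)) ∣
          Nat.card ((⊤ : Subgroup H).lowerCentralSeries j) := Subgroup.card_dvd_of_le hle
      obtain ⟨q, hq⟩ := h3
      have h4 : 0 < Nat.card ((⊤ : Subgroup H).lowerCentralSeries j) := Nat.card_pos
      have h5 : q ≠ 0 := by
        rintro rfl
        rw [hq, mul_zero] at h4
        exact lt_irrefl 0 h4
      have h6 : q ≠ 1 := by
        rintro rfl
        rw [mul_one] at hq
        exact he (Subgroup.eq_of_le_of_card_ge hle hq.le)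
      rw [hq]
      exact Nat.mul_le_mul_left _ (by omega)
  have hind : ∀ s, (⊤ : Subgroup H).lowerCentralSeries (i + s) = ⊥ ∨
      Nat.card ((⊤ : Subgroup H).lowerCentralSeries (i + s)) * 2 ^ s ≤
        Nat.card ((⊤ : Subgroup H).lowerCentralSeries i) := by
    intro s
    induction s with
    | zero => right; simp
    | succ s ih =>
      rcases ih with ih | ih
      · left
        rw [← add_assoc, Subgroup.lowerCentralSeries_succ, ih, Subgroup.commutator_bot_left]
      · rcases hstep (i + s) with h | h
        · left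
          rw [← add_assoc, Subgroup.lowerCentralSeries_succ, h, Subgroup.commutator_bot_left]
        · right
          rw [← add_assoc, pow_succ]
          calc _ = Nat.card ((⊤ : Subgroup H).lowerCentralSeries (i + s + 1)) * 2 * 2 ^ s := by
                ring
            _ ≤ Nat.card ((⊤ : Subgroup H).lowerCentralSeries (i + s)) * 2 ^ s :=
                Nat.mul_le_mul_right _ h
            _ ≤ _ := ih
  rcases hind t with h | h
  · exact h
  · exfalso
    have h3 : 0 < Nat.card ((⊤ : Subgroup H).lowerCentralSeries (i + t)) := Nat.card_pos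
    have h4 : 1 * 2 ^ t ≤ Nat.card ((⊤ : Subgroup H).lowerCentralSeries (i + t)) * 2 ^ t :=
      Nat.mul_le_mul_right _ h3
    omega

end PCN
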